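import Pool.Agent.W650.HL.Stm

/-!
Project HL, part TREELOG: the entropy lower bound for trees.
-/

set_option autoImplicit false

namespace Pool.Agent.W15.HL

open Finset Pool.W650.HL

theorem EE_add {r : ℕ} (a : Fin r → ℝ) (lam : ℝ) (f g : Fin r → ℝ) :
    EE a lam (fun i => f i + g i) = EE a lam f + EE a lam g := by
  unfold EE
  rw [← Finset.sum_add_distrib]
  exact Finset.sum_congr rfl fun i _ => mul_add _ _ _

theorem EE_zero {r : ℕ} (a : Fin r → ℝ) (lam : ℝ) : EE a lam (fun _ => 0) = 0 := by
  unfold EE
  simp

theorem EE_const {r : ℕ} (a : Fin r → ℝ) (lam : ℝ) (h : ∑ i, mm a lam i = 1) (c : ℝ) :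
    EE a lam (fun _ => c) = c := by
  unfold EE
  rw [← Finset.sum_mul, h, one_mul]

/-- one vertex -/
theorem Zf_one {V : Type} [Fintype V] {r : ℕ} (a : Fin r → ℝ) (G : SimpleGraph V)
    (F : V → Fin r → ℝ) (v₀ : V) (hv : ∀ v, v = v₀) : Zf a G F = ∑ i, a i * F v₀ i := by
  classical
  unfold Zf
  have hU : Unique V := ⟨⟨v₀⟩, hv⟩
  have e : (∑ i, a i * F v₀ i) = ∑ σ : V → Fin r, a (σ v₀) * F v₀ (σ v₀) := by
    refine (Fintype.sum_equiv (Equiv.funUnique V (Fin r)) _ _ ?_).symm
    intro σ
    have : (Equiv.funUnique V (Fin r)) σ = σ v₀ := by
      simp only [Equiv.funUnique_apply]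
      rw [hv default]
    rw [this]
  rw [e]
  refine Finset.sum_congr (by ext; simp) fun σ _ => ?_
  have h1 : ∀ u v, G.Adj u v → σ u ≠ σ v := by
    intro u v huv
    exact absurd ((hv u).trans (hv v).symm) huv.ne
  rw [if_pos h1]
  have h2 : (Finset.univ : Finset V) = {v₀} := by
    ext v
    rw [Finset.mem_singleton]
    exact ⟨fun _ => hv v, fun _ => Finset.mem_univ v⟩
  rw [h2, Finset.prod_singleton]

theorem treelog (h1 : LEAFREM) (h2 : DELTREE) (h3 : EXLEAF) (h4 : DGLEAF) (h5 : JEN)
    (h6 : BASE) (h7 : MFACTS) : TREELOG := by
  classical
  have key : ∀ n : ℕ, ∀ (V : Type) [Fintype V], Fintype.card V = n →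
      ∀ (r : ℕ) (a : Fin r → ℝ) (lam : ℝ), Good a lam →
      ∀ (G : SimpleGraph V), G.IsTree → ∀ (F : V → Fin r → ℝ), (∀ v i, 0 < F v i) →
      ∀ S : Finset V, (∀ v ∈ S, dg G v = 1) → (∀ v ∈ S, ∀ w ∈ S, ¬ G.Adj v w) →
      (∀ v ∈ S, ∀ i, F v i = 1) →
      0 < Zf a G F ∧
      (Fintype.card V : ℝ) * Real.log lam + Real.log (WW a lam)
        + 2 * EE a lam (fun i => Real.log (phi a lam i))
        + ∑ v, EE a lam (fun i => Real.log (F v i))
        + (S.card : ℝ) * EE a lam (fun i => Real.log (chi a lam i)) ≤ Real.log (Zf a G F) := by
    intro n
    induction n with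
    | zero =>
      intro V _ hn r a lam hg G hG
      have := hG.connected.nonempty
      have h0 : 0 < Fintype.card V := Fintype.card_pos
      omega
    | succ n ih =>
      intro V _ hn r a lam hg G hG F hF S hS1 hS2 hS3
      obtain ⟨hW, hp, hm, hm1, hb1, hb2, hv, hvar⟩ := h7 r a lam hg
      rcases Nat.eq_zero_or_pos n with hn0 | hn0
      · -- one vertex
        obtain ⟨v₀⟩ := hG.connected.nonempty
        have hc1 : Fintype.card V = 1 := by omega
        have hv0 : ∀ v, v = v₀ := fun v => Fintype.card_le_one_iff.mp (le_of_eq hc1) v v₀
        have hS : S = ∅ := by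
          rw [Finset.eq_empty_iff_forall_notMem]
          intro v hvS
          obtain ⟨u, hu⟩ := (h4 V G v).mp (hS1 v hvS)
          exact hu.1.ne ((hv0 v).trans (hv0 u).symm)
        have hr : (Finset.univ : Finset (Fin r)).Nonempty := by
          by_contra hcon
          rw [Finset.not_nonempty_iff_eq_empty] at hcon
          have := hg.sum_one
          rw [hcon, Finset.sum_empty] at this
          exact zero_ne_one this
        have hZ := Zf_one a G F v₀ hv0
        refine ⟨?_, ?_⟩
        · rw [hZ]
          exact Finset.sum_pos (fun i _ => mul_pos (hg.pos i) (hF v₀ i)) hr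
        · have h8 := h6 r a lam hg (F v₀) (hF v₀)
          have h9 : (Finset.univ : Finset V) = {v₀} := by
            ext v
            simp [hv0 v]
          rw [hZ, hS, hc1, h9, Finset.sum_singleton]
          simp only [Nat.cast_one, one_mul, Finset.card_empty, Nat.cast_zero, zero_mul, add_zero]
          exact h8
      · -- at least two vertices
        have hleaf : ∃ l u, Leaf G l u ∧ (S.Nonempty → l ∈ S) := by
          by_cases hne : S.Nonempty
          · obtain ⟨l, hl⟩ := hne
            obtain ⟨u, hu⟩ := (h4 V G l).mp (hS1 l hl)
            exact ⟨l, u, hu, fun _ => hl⟩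
          · obtain ⟨c⟩ := hG.connected.nonempty
            obtain ⟨l, u, _, hu⟩ := h3 V G hG c (by omega)
            exact ⟨l, u, hu, fun h => absurd h hne⟩
        obtain ⟨l, u, hlu, hlS⟩ := hleaf
        obtain ⟨hJ1, hJ2⟩ := h5 r a lam hg (F l) (hF l)
        have hul : u ≠ l := hlu.1.ne'
        rw [h1 V r a G F l u hlu]
        obtain ⟨hT, hdeg⟩ := h2 V G l u hG hlu
        have hcard : Fintype.card V = Fintype.card {v : V // v ≠ l} + 1 := by
          have := Fintype.sum_eq_add_sum_subtype_ne (fun _ : V => 1) l
          simp only [Finset.sum_const, Finset.card_univ, smul_eq_mul, mul_one] at this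
          omega
        set F' : {v : V // v ≠ l} → Fin r → ℝ :=
          fun v i => if v.1 = u then F u i * Mop a (F l) i else F v.1 i with hF'
        have hF'pos : ∀ v i, 0 < F' v i := by
          intro v i
          simp only [hF']
          split_ifs
          · exact mul_pos (hF u i) (hJ1 i)
          · exact hF _ i
        set S' : Finset {v : V // v ≠ l} := S.subtype (fun v => v ≠ l) with hS'
        have hne : ∀ v : {v : V // v ≠ l}, v ∈ S' → v.1 ∈ S ∧ v.1 ≠ u := by
          intro v hv
          have hvS : v.1 ∈ S := Finset.mem_subtype.mp hv
          refine ⟨hvS, fun he => ?_⟩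
          have := hS2 l (hlS ⟨_, hvS⟩) v.1 hvS
          rw [he] at this
          exact this hlu.1
        obtain ⟨hpos, hle⟩ := ih {v : V // v ≠ l} (by omega) r a lam hg (del G l) hT F' hF'pos S'
          (by
            intro v hv
            obtain ⟨ha, hb⟩ := hne v hv
            rw [(hdeg v).2 hb]
            exact hS1 _ ha)
          (by
            intro v hv w hw hadj
            exact hS2 _ (hne v hv).1 _ (hne w hw).1 hadj)
          (by
            intro v hv i
            obtain ⟨ha, hb⟩ := hne v hv
            simp only [hF']
            rw [if_neg hb]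
            exact hS3 _ ha i)
        refine ⟨hpos, le_trans ?_ hle⟩
        -- the sum over the smaller vertex set
        have hE : ∀ v : {v : V // v ≠ l}, EE a lam (fun i => Real.log (F' v i)) =
            EE a lam (fun i => Real.log (F v.1 i)) +
              if v = ⟨u, hul⟩ then EE a lam (fun i => Real.log (Mop a (F l) i)) else 0 := by
          intro v
          by_cases hvu : v.1 = u
          · have hvu' : v = ⟨u, hul⟩ := Subtype.ext hvu
            rw [if_pos hvu', ← EE_add]
            congr 1
            funext i
            simp only [hF']
            rw [if_pos hvu, Real.log_mul (hF u i).ne' (hJ1 i).ne', hvu]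
          · have hvu' : v ≠ ⟨u, hul⟩ := fun h => hvu (congrArg Subtype.val h)
            rw [if_neg hvu', add_zero]
            congr 1
            funext i
            simp only [hF']
            rw [if_neg hvu]
        have hsum : ∑ v : {v : V // v ≠ l}, EE a lam (fun i => Real.log (F' v i)) =
            ∑ v : {v : V // v ≠ l}, EE a lam (fun i => Real.log (F v.1 i)) +
              EE a lam (fun i => Real.log (Mop a (F l) i)) := by
          rw [Finset.sum_congr rfl fun v _ => hE v, Finset.sum_add_distrib,
            Finset.sum_ite_eq' Finset.univ, if_pos (Finset.mem_univ _)]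
        have hsum2 := Fintype.sum_eq_add_sum_subtype_ne
          (fun v : V => EE a lam (fun i => Real.log (F v i))) l
        rw [hsum, hsum2, hcard]
        push_cast
        -- the contribution of the leaf
        have hmain : Real.log lam + EE a lam (fun i => Real.log (F l i)) +
            (S.card : ℝ) * EE a lam (fun i => Real.log (chi a lam i)) ≤
            EE a lam (fun i => Real.log (Mop a (F l) i)) +
            (S'.card : ℝ) * EE a lam (fun i => Real.log (chi a lam i)) := by
          by_cases hSne : S.Nonempty
          · have hl := hlS hSne
            have hcS : S.card = S'.card + 1 := by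
              rw [hS', Finset.card_subtype]
              have : S.filter (fun v => v ≠ l) = S.erase l := by
                ext v
                simp [and_comm]
              rw [this, Finset.card_erase_of_mem hl]
              have : 0 < S.card := Finset.card_pos.mpr hSne
              omega
            have e1 : EE a lam (fun i => Real.log (F l i)) = 0 := by
              have : (fun i => Real.log (F l i)) = fun _ => (0:ℝ) := by
                funext i
                rw [hS3 l hl i, Real.log_one]
              rw [this, EE_zero]
            have e2 : EE a lam (fun i => Real.log (Mop a (F l) i)) =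
                Real.log lam + EE a lam (fun i => Real.log (chi a lam i)) := by
              have e3 : (fun i => Real.log (Mop a (F l) i)) =
                  fun i => Real.log lam + Real.log (chi a lam i) := by
                funext i
                have e4 : Mop a (F l) i = lam * chi a lam i := by
                  unfold Mop chi
                  have e5 : ∑ j, a j * F l j = 1 := by
                    rw [← hg.sum_one]
                    exact Finset.sum_congr rfl fun j _ => by rw [hS3 l hl j, mul_one]
                  rw [e5, hS3 l hl i, mul_one]
                  have := hg.lam_pos.ne'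
                  field_simp
                have e6 : 0 < chi a lam i := by
                  unfold chi
                  exact div_pos (by linarith [(hp i).2.2]) hg.lam_pos
                rw [e4, Real.log_mul hg.lam_pos.ne' e6.ne']
              rw [e3, EE_add a lam (fun _ => Real.log lam) (fun i => Real.log (chi a lam i)),
                EE_const a lam hm1]
            rw [e1, e2, hcS]
            push_cast
            linarith
          · have hS0 : S = ∅ := Finset.not_nonempty_iff_eq_empty.mp hSne
            have hS'0 : S' = ∅ := by
              rw [Finset.eq_empty_iff_forall_notMem]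
              intro v hv
              have := (hne v hv).1
              rw [hS0] at this
              exact absurd this (Finset.notMem_empty _)
            rw [hS'0, hS0]
            simp only [Finset.card_empty, Nat.cast_zero, zero_mul, add_zero]
            exact hJ2
        linarith
  intro V _ r a lam hg G hG F hF S hS1 hS2 hS3
  exact key (Fintype.card V) V rfl r a lam hg G hG F hF S hS1 hS2 hS3

end Pool.Agent.W15.HL
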